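import Pool.Agent.H724.WE.SFStm

set_option autoImplicit false

/-! AB11 of the project WE (helper724): a forest has at most as many edges as vertices. -/

namespace Pool.Agent.H282.WE

open Finset H724.WE
open scoped Classical

theorem forestCard : S_forestCard := by
  intro V ε src dst T K hK hF
  let θ : {e // e ∈ T} → ({x // x ∈ K} → ℚ) := fun e x =>
    if Conn src dst ((T : Set ε) \ {e.1}) (src e.1) x.1 then 1 else 0
  have hθ : ∀ e e' : {e // e ∈ T}, θ e ⟨src e'.1, (hK e'.1 e'.2).1⟩ - θ e ⟨dst e'.1, (hK e'.1 e'.2).2⟩ =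
      if e = e' then 1 else 0 := by
    intro e e'
    by_cases h : e = e'
    · subst h
      rw [if_pos rfl]
      simp only [θ]
      rw [if_pos (Conn.refl _), if_neg (hF e.1 e.2), sub_zero]
    · rw [if_neg h]
      have hmem : e'.1 ∈ (T : Set ε) \ {e.1} := ⟨e'.2, fun h' => h (Subtype.ext h'.symm)⟩
      have hiff : Conn src dst ((T : Set ε) \ {e.1}) (src e.1) (src e'.1) ↔
          Conn src dst ((T : Set ε) \ {e.1}) (src e.1) (dst e'.1) :=
        ⟨fun h1 => h1.trans (Conn.edge hmem), fun h1 => h1.trans (Conn.edge' hmem)⟩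
      simp only [θ]
      by_cases h1 : Conn src dst ((T : Set ε) \ {e.1}) (src e.1) (src e'.1)
      · rw [if_pos h1, if_pos (hiff.1 h1), sub_self]
      · rw [if_neg h1, if_neg (fun h2 => h1 (hiff.2 h2)), sub_self]
  have hli : LinearIndependent ℚ θ := by
    rw [Fintype.linearIndependent_iff]
    intro g hg e'
    have h1 := congrFun hg ⟨src e'.1, (hK e'.1 e'.2).1⟩
    have h2 := congrFun hg ⟨dst e'.1, (hK e'.1 e'.2).2⟩
    simp only [Finset.sum_apply, Pi.smul_apply, Pi.zero_apply, smul_eq_mul] at h1 h2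
    have h3 : ∑ e, g e * (θ e ⟨src e'.1, (hK e'.1 e'.2).1⟩ - θ e ⟨dst e'.1, (hK e'.1 e'.2).2⟩) = 0 := by
      simp only [mul_sub, Finset.sum_sub_distrib]
      rw [h1, h2, sub_zero]
    simp only [hθ, mul_ite, mul_one, mul_zero] at h3
    rw [Finset.sum_ite_eq' Finset.univ e' g] at h3
    simpa using h3
  have hc := hli.fintype_card_le_finrank
  rw [Module.finrank_fintype_fun_eq_card] at hc
  simpa using hc

end Pool.Agent.H282.WE
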